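import Mathlib
import Pool.Agent.Lib_helper72.LP.Main

set_option autoImplicit false

/-!
Every large prime `p` is the least prime of its residue class for moduli of every size between
`p / (c₁ ε W(p))` and `ε p / 4`, where
`W(p) = log p * log log p * log log log log p / (log log log p) ^ 2`, and the residue can be taken
very small: for every real `N` in this range there are `m` with `N ≤ m ≤ (1 + ε) N` and
`φ(m) ≥ (1 - ε) m`, and `1 ≤ c ≤ m ^ ε`, such that `p` is the least prime congruent to `c`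
modulo `m`.
-/

namespace Pool.Agent.Results.MP_e1dc24_nt.LeastPrimesOfEverySize

open Pool.Agent.Lib_helper72.LP

theorem result :
    ∃ c₁ : ℝ, 0 < c₁ ∧ ∀ ε : ℝ, 0 < ε → ε ≤ 1 → ∃ P₀ : ℕ, ∀ p : ℕ, p.Prime → P₀ ≤ p →
      ∀ N : ℝ, (p : ℝ) ≤ c₁ * ε * (N * (Real.log p * Real.log (Real.log p) *
          Real.log (Real.log (Real.log (Real.log p))) /
            (Real.log (Real.log (Real.log p))) ^ 2)) → 4 * N ≤ ε * p →
        ∃ m c : ℕ, N ≤ m ∧ (m : ℝ) ≤ (1 + ε) * N ∧ 1 ≤ c ∧ (c : ℝ) ≤ (m : ℝ) ^ ε ∧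
          (1 - ε) * m ≤ m.totient ∧ p ≡ c [MOD m] ∧
          ∀ q : ℕ, q.Prime → q ≡ c [MOD m] → p ≤ q :=
  every_size

end Pool.Agent.Results.MP_e1dc24_nt.LeastPrimesOfEverySize
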